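import Mathlib

/-!
# All countable chains with the doubling property that are not unsecable

We determine all counterexamples to the question whether a countable chain `A`, such that
`X + X < A` holds for every initial interval `X` of `A` with `X < A`, must be unsecable.
-/

set_option autoImplicit false

namespace Pool.Agent.Results.MP_5790d7_co.AllCounterexamples

universe u v w

open Set

/-- The hypothesis of the question: `X + X < A` for every initial interval `X` of `A` with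
`X < A`. -/
def Doubling (A : Type u) [LinearOrder A] : Prop :=
  ∀ X : Set A, IsLowerSet X → Nonempty (X ↪o A) ∧ ¬ Nonempty (A ↪o X) →
    Nonempty ((X ⊕ₗ X) ↪o A) ∧ ¬ Nonempty (A ↪o (X ⊕ₗ X))

/-- The chain `A` is unsecable: `A ≤ B` or `A ≤ C` for every decomposition `A = B + C`. -/
def Unsecable (A : Type u) [LinearOrder A] : Prop :=
  ∀ B : Set A, IsLowerSet B → Nonempty (A ↪o B) ∨ Nonempty (A ↪o (Bᶜ : Set A))

section Sums

theorem sum_emb {X : Type u} {Y : Type v} {Z : Type w} [LinearOrder X] [LinearOrder Y]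
    [LinearOrder Z] (f : X → Z) (g : Y → Z) (hf : StrictMono f) (hg : StrictMono g)
    (h : ∀ x y, f x < g y) : Nonempty ((X ⊕ₗ Y) ↪o Z) := by
  refine ⟨OrderEmbedding.ofStrictMono (fun a => Sum.elim f g (ofLex a)) ?_⟩
  intro a b hab
  induction a using Lex.rec with
  | _ a =>
  induction b using Lex.rec with
  | _ b =>
  rcases a with a | a <;> rcases b with b | b
  · exact hf (Sum.Lex.inl_lt_inl_iff.mp hab)
  · exact h a b
  · exact absurd hab Sum.Lex.not_inr_lt_inl
  · exact hg (Sum.Lex.inr_lt_inr_iff.mp hab)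

variable {X : Type u} {Y : Type v} {Z : Type w} [LinearOrder X] [LinearOrder Y] [LinearOrder Z]

theorem mono_left (u : (X ⊕ₗ Y) ↪o Z) : StrictMono fun x => u (Sum.inlₗ x) := fun _ _ h =>
  u.strictMono (Sum.Lex.inl_lt_inl_iff.mpr h)

theorem mono_right (u : (X ⊕ₗ Y) ↪o Z) : StrictMono fun y => u (Sum.inrₗ y) := fun _ _ h =>
  u.strictMono (Sum.Lex.inr_lt_inr_iff.mpr h)

theorem lt_cross (u : (X ⊕ₗ Y) ↪o Z) (x : X) (y : Y) : u (Sum.inlₗ x) < u (Sum.inrₗ y) :=
  u.strictMono (Sum.Lex.inl_lt_inr x y)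

/-- a strictly monotone map into a set -/
theorem emb_into {Q : Set Z} (f : X → Z) (hf : StrictMono f) (h : ∀ x, f x ∈ Q) :
    Nonempty (X ↪o Q) :=
  ⟨OrderEmbedding.ofStrictMono (fun x => (⟨f x, h x⟩ : Q)) fun _ _ hab => hf hab⟩

theorem emb_trans (h1 : Nonempty (X ↪o Y)) (h2 : Nonempty (Y ↪o Z)) : Nonempty (X ↪o Z) := by
  obtain ⟨f⟩ := h1
  obtain ⟨g⟩ := h2
  exact ⟨f.trans g⟩

theorem emb_mono {P Q : Set Z} (h : P ⊆ Q) : Nonempty (P ↪o Q) :=
  emb_into (fun x : P => (x : Z)) (fun _ _ hab => hab) fun x => h x.2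

theorem emb_set (P : Set Z) : Nonempty (P ↪o Z) :=
  ⟨OrderEmbedding.subtype P⟩

end Sums

section Double

variable {X : Type u} [LinearOrder X]

/-- the closure of a point under two maps -/
inductive Tree (L R : X → X) (p : X) : X → Prop
  | base : Tree L R p p
  | left {x : X} : Tree L R p x → Tree L R p (L x)
  | right {x : X} : Tree L R p x → Tree L R p (R x)

/-- If a nonempty chain contains two copies of itself, one after the other, then it contains every
countable chain. -/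
theorem universal_of_double [Nonempty X] (hX : Nonempty ((X ⊕ₗ X) ↪o X)) (A : Type v)
    [LinearOrder A] [Countable A] : Nonempty (A ↪o X) := by
  obtain ⟨f⟩ := hX
  obtain ⟨c⟩ := ‹Nonempty X›
  set L : X → X := fun x => f (Sum.inlₗ (f (Sum.inlₗ x))) with hL
  set R : X → X := fun x => f (Sum.inrₗ x) with hR
  set p : X := f (Sum.inlₗ (f (Sum.inrₗ c))) with hp
  have hLm : StrictMono L := (mono_left f).comp (mono_left f)
  have hRm : StrictMono R := mono_right f
  have hLp : ∀ x, L x < p := fun x => mono_left f (lt_cross f x c)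
  have hpR : ∀ y, p < R y := fun y => lt_cross f _ y
  have hLR : ∀ x y, L x < R y := fun x y => (hLp x).trans (hpR y)
  have below : ∀ b, Tree L R p b → ∃ a, Tree L R p a ∧ a < b := by
    intro b hb
    induction hb with
    | base => exact ⟨L p, .left .base, hLp p⟩
    | left _ ih =>
      obtain ⟨a, ha, hab⟩ := ih
      exact ⟨L a, .left ha, hLm hab⟩
    | right _ _ => exact ⟨p, .base, hpR _⟩
  have above : ∀ b, Tree L R p b → ∃ a, Tree L R p a ∧ b < a := by
    intro b hb
    induction hb with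
    | base => exact ⟨R p, .right .base, hpR p⟩
    | left _ _ => exact ⟨p, .base, hLp _⟩
    | right _ ih =>
      obtain ⟨a, ha, hab⟩ := ih
      exact ⟨R a, .right ha, hRm hab⟩
  have between : ∀ a, Tree L R p a → ∀ b, Tree L R p b → a < b →
      ∃ c, Tree L R p c ∧ a < c ∧ c < b := by
    intro a ha
    induction ha with
    | base =>
      intro b hb hab
      cases hb with
      | base => exact absurd hab (lt_irrefl _)
      | left _ => exact absurd hab (hLp _).not_gt
      | right hb' =>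
        obtain ⟨c, hc, hcb⟩ := below _ hb'
        exact ⟨R c, .right hc, hpR c, hRm hcb⟩
    | @left a' ha' ih =>
      intro b hb hab
      cases hb with
      | base =>
        obtain ⟨c, hc, hcb⟩ := above _ ha'
        exact ⟨L c, .left hc, hLm hcb, hLp c⟩
      | left hb' =>
        obtain ⟨c, hc, h1, h2⟩ := ih _ hb' (hLm.lt_iff_lt.mp hab)
        exact ⟨L c, .left hc, hLm h1, hLm h2⟩
      | right _ => exact ⟨p, .base, hLp _, hpR _⟩
    | @right a' ha' ih =>
      intro b hb hab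
      cases hb with
      | base => exact absurd hab (hpR _).not_gt
      | left _ => exact absurd hab (hLR _ _).not_gt
      | right hb' =>
        obtain ⟨c, hc, h1, h2⟩ := ih _ hb' (hRm.lt_iff_lt.mp hab)
        exact ⟨R c, .right hc, hRm h1, hRm h2⟩
  have hdense : DenselyOrdered {x // Tree L R p x} := ⟨by
    rintro ⟨a, ha⟩ ⟨b, hb⟩ hab
    obtain ⟨c, hc, h1, h2⟩ := between a ha b hb hab
    exact ⟨⟨c, hc⟩, h1, h2⟩⟩
  have hnt : Nontrivial {x // Tree L R p x} :=
    ⟨⟨p, .base⟩, ⟨L p, .left .base⟩, fun h => (hLp p).ne' (congrArg Subtype.val h)⟩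
  obtain ⟨e⟩ := Order.embedding_from_countable_to_dense A {x // Tree L R p x}
  exact ⟨e.trans (OrderEmbedding.subtype _)⟩

end Double

section Main

variable {A : Type u} [LinearOrder A]

/-- the union of all initial intervals in which `A` does not embed -/
def core (A : Type u) [LinearOrder A] : Set A :=
  ⋃₀ {X : Set A | IsLowerSet X ∧ ¬ Nonempty (A ↪o X)}

theorem core_lower : IsLowerSet (core A) := isLowerSet_sUnion fun _ hX => hX.1

theorem Iic_small {y : A} (hy : y ∈ core A) : ¬ Nonempty (A ↪o (Iic y : Set A)) := by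
  obtain ⟨X, ⟨hX, hX'⟩, hyX⟩ := hy
  exact fun h => hX' (emb_trans h (emb_mono fun x hx => hX hx hyX))

/-- shifting an initial interval with a top element beyond a given point -/
theorem shift [Countable A] (hD : Doubling A) (hF : Nonempty (A ↪o core A)) {y z : A}
    (hy : y ∈ core A) (hz : z ∈ core A) :
    Nonempty ((Iic y : Set A) ↪o ({a | a ∈ core A ∧ z < a} : Set A)) := by
  have hz0 : z ∈ Iic z := le_rfl
  -- two copies of `Iic z` are contained in `Iic z₁`
  obtain ⟨u⟩ := emb_trans (hD (Iic z) (isLowerSet_Iic z) ⟨emb_set _, Iic_small hz⟩).1 hF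
  set z₁ : A := (u (Sum.inrₗ ⟨z, hz0⟩)).1 with hz₁
  have hz₁F : z₁ ∈ core A := (u (Sum.inrₗ ⟨z, hz0⟩)).2
  have h1 : Nonempty (((Iic z : Set A) ⊕ₗ (Iic z : Set A)) ↪o (Iic z₁ : Set A)) := by
    refine sum_emb (fun x => (⟨(u (Sum.inlₗ x)).1, ?_⟩ : (Iic z₁ : Set A)))
      (fun x => (⟨(u (Sum.inrₗ x)).1, ?_⟩ : (Iic z₁ : Set A))) ?_ ?_ ?_
    · exact (lt_cross u x ⟨z, hz0⟩).le
    · exact (mono_right u).monotone (a := x) (b := ⟨z, hz0⟩) x.2
    · exact fun a b hab => mono_left u hab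
    · exact fun a b hab => mono_right u hab
    · exact fun a b => lt_cross u a b
  have h2 : ¬ Nonempty ((Iic z₁ : Set A) ↪o (Iic z : Set A)) := by
    intro h
    have : Nonempty (Iic z : Set A) := ⟨⟨z, hz0⟩⟩
    exact Iic_small hz (universal_of_double (emb_trans h1 h) A)
  -- the larger initial interval
  set y' := max y z₁ with hy'
  have hy'F : y' ∈ core A := by
    rcases max_choice y z₁ with h | h
    · rw [hy', h]; exact hy
    · rw [hy', h]; exact hz₁F
  have hy'0 : y' ∈ Iic y' := le_rfl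
  obtain ⟨v⟩ := emb_trans (hD (Iic y') (isLowerSet_Iic y') ⟨emb_set _, Iic_small hy'F⟩).1 hF
  have h3 : z < (v (Sum.inlₗ ⟨y', hy'0⟩)).1 := by
    by_contra hcon
    rw [not_lt] at hcon
    apply h2
    refine emb_trans (emb_mono (Iic_subset_Iic.2 (le_max_right y z₁))) ?_
    refine emb_into (fun x : (Iic y' : Set A) => (v (Sum.inlₗ x)).1)
      (fun a b hab => mono_left v hab) fun x => ?_
    have : v (Sum.inlₗ x) ≤ v (Sum.inlₗ ⟨y', hy'0⟩) :=
      (mono_left v).monotone (a := x) (b := ⟨y', hy'0⟩) x.2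
    exact le_trans this hcon
  refine emb_trans (emb_mono (Iic_subset_Iic.2 (le_max_left y z₁))) ?_
  refine emb_into (fun x : (Iic y' : Set A) => (v (Sum.inrₗ x)).1)
    (fun a b hab => mono_right v hab) fun x => ⟨(v (Sum.inrₗ x)).2, ?_⟩
  exact h3.trans (lt_cross v ⟨y', hy'0⟩ x)

/-- If a countable chain with the doubling property is not unsecable, then it does not embed in
the union of the initial intervals in which it does not embed. -/
theorem not_emb_core [Countable A] (hD : Doubling A) {B : Set A} (hB : IsLowerSet B)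
    (hAB : ¬ Nonempty (A ↪o B)) (hAC : ¬ Nonempty (A ↪o (Bᶜ : Set A))) :
    ¬ Nonempty (A ↪o core A) := by
  intro hF
  obtain ⟨z, hzF, hzB⟩ : ∃ z ∈ core A, z ∉ B := by
    by_contra hcon
    push Not at hcon
    exact hAB (emb_trans hF (emb_mono hcon))
  have : Nonempty (core A) := ⟨⟨z, hzF⟩⟩
  obtain ⟨s, hs⟩ := exists_surjective_nat (core A)
  -- an increasing cofinal sequence
  let y : ℕ → core A := fun n => Nat.rec (s 0) (fun k a => max a (s (k + 1))) n
  have hyS : ∀ n, y (n + 1) = max (y n) (s (n + 1)) := fun n => rfl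
  have hyc : ∀ n, s n ≤ y n := by
    intro n
    cases n with
    | zero => exact le_rfl
    | succ n => rw [hyS]; exact le_max_right _ _
  have hex : ∀ a : core A, ∃ n, a.1 ≤ (y n).1 := by
    intro a
    obtain ⟨n, rfl⟩ := hs a
    exact ⟨n, hyc n⟩
  -- the shifted pieces
  have G0 : ∀ (n : ℕ) (z : core A),
      Nonempty ((Iic (y n).1 : Set A) ↪o ({a | a ∈ core A ∧ z.1 < a} : Set A)) :=
    fun n z => shift hD hF (y n).2 z.2
  obtain ⟨G⟩ : Nonempty (∀ (n : ℕ) (z : core A),
      (Iic (y n).1 : Set A) ↪o ({a | a ∈ core A ∧ z.1 < a} : Set A)) :=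
    ⟨fun n z => (G0 n z).some⟩
  let zs : ℕ → core A := fun n => Nat.rec ⟨z, hzF⟩
    (fun k t => ⟨(G k t ⟨(y k).1, le_rfl⟩).1, (G k t ⟨(y k).1, le_rfl⟩).2.1⟩) n
  have hzs : ∀ n, (zs (n + 1)).1 = (G n (zs n) ⟨(y n).1, le_rfl⟩).1 := fun n => rfl
  have hzm : StrictMono fun n => (zs n).1 := by
    refine strictMono_nat_of_lt_succ fun n => ?_
    rw [hzs]
    exact (G n (zs n) ⟨(y n).1, le_rfl⟩).2.2
  classical
  let N : core A → ℕ := fun a => Nat.find (hex a)
  have hN : ∀ a : core A, a.1 ≤ (y (N a)).1 := fun a => Nat.find_spec (hex a)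
  let ev : (n : ℕ) → (a : A) → a ≤ (y n).1 → A := fun n a h => (G n (zs n) ⟨a, h⟩).1
  have hev1 : ∀ n a h, (zs n).1 < ev n a h := fun n a h => (G n (zs n) ⟨a, h⟩).2.2
  have hev2 : ∀ n a h, ev n a h ≤ (zs (n + 1)).1 := by
    intro n a h
    rw [hzs]
    exact (G n (zs n)).monotone (a := ⟨a, h⟩) (b := ⟨(y n).1, le_rfl⟩) h
  have hev3 : ∀ n m a b (h : a ≤ (y n).1) (h' : b ≤ (y m).1), n = m → a < b →
      ev n a h < ev m b h' := by
    intro n m a b h h' hnm hab
    subst hnm
    exact (G n (zs n)).strictMono (a := ⟨a, h⟩) (b := ⟨b, h'⟩) hab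
  have hmono : StrictMono fun a : core A => ev (N a) a.1 (hN a) := by
    intro a b hab
    have h1 : N a ≤ N b := Nat.find_min' (hex a) (le_trans (le_of_lt hab) (hN b))
    rcases h1.lt_or_eq with h1 | h1
    · calc ev (N a) a.1 (hN a) ≤ (zs (N a + 1)).1 := hev2 _ _ _
        _ ≤ (zs (N b)).1 := hzm.monotone h1
        _ < ev (N b) b.1 (hN b) := hev1 _ _ _
    · exact hev3 _ _ _ _ _ _ h1 hab
  apply hAC
  refine emb_trans hF (emb_into _ hmono fun a => ?_)
  intro hcon
  refine hzB (hB (le_of_lt (lt_of_le_of_lt ?_ (hev1 (N a) a.1 (hN a)))) hcon)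
  exact hzm.monotone (Nat.zero_le (N a))

/-- the description of the counterexamples -/
def Shape (A : Type u) [LinearOrder A] : Prop :=
  ∃ F : Set A, IsLowerSet F ∧ (Fᶜ).Nonempty ∧
    (∀ d ∈ Fᶜ, Nonempty ((Fᶜ : Set A) ↪o (Fᶜ ∩ Iic d : Set A))) ∧
    Nonempty ((F ⊕ₗ F) ↪o A) ∧ ¬ Nonempty ((Fᶜ : Set A) ↪o F) ∧
    ¬ Nonempty (A ↪o (Fᶜ : Set A))

/-- `D` is not embeddable in `F + F` -/
theorem not_emb_double {F : Set A}
    (h1 : ∀ d ∈ Fᶜ, Nonempty ((Fᶜ : Set A) ↪o (Fᶜ ∩ Iic d : Set A)))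
    (h3 : ¬ Nonempty ((Fᶜ : Set A) ↪o F)) : ¬ Nonempty ((Fᶜ : Set A) ↪o (F ⊕ₗ F)) := by
  rintro ⟨g⟩
  by_cases hc : ∃ (d : (Fᶜ : Set A)) (x : F), g d = Sum.inlₗ x
  · obtain ⟨d, x, hdx⟩ := hc
    apply h3
    refine emb_trans (h1 d.1 d.2) ?_
    have hall : ∀ e : (Fᶜ ∩ Iic d.1 : Set A), ∃ t : F, g ⟨e.1, e.2.1⟩ = Sum.inlₗ t := by
      intro e
      have hle : g ⟨e.1, e.2.1⟩ ≤ g d := g.monotone (a := ⟨e.1, e.2.1⟩) (b := d) e.2.2
      rw [hdx] at hle
      induction h : g ⟨e.1, e.2.1⟩ using Lex.rec with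
      | _ a =>
      rcases a with a | a
      · exact ⟨a, rfl⟩
      · rw [h] at hle
        exact absurd (Sum.Lex.inl_lt_inr x a) hle.not_gt
    choose t ht using hall
    refine ⟨OrderEmbedding.ofStrictMono t ?_⟩
    intro a b hab
    have h4 : g ⟨a.1, a.2.1⟩ < g ⟨b.1, b.2.1⟩ := g.strictMono (a := ⟨a.1, a.2.1⟩)
      (b := ⟨b.1, b.2.1⟩) hab
    rw [ht a, ht b] at h4
    exact Sum.Lex.inl_lt_inl_iff.mp h4
  · push Not at hc
    apply h3
    have hall : ∀ e : (Fᶜ : Set A), ∃ t : F, g e = Sum.inrₗ t := by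
      intro e
      induction h : g e using Lex.rec with
      | _ a =>
      rcases a with a | a
      · exact absurd h (hc e a)
      · exact ⟨a, rfl⟩
    choose t ht using hall
    refine ⟨OrderEmbedding.ofStrictMono t ?_⟩
    intro a b hab
    have h4 : g a < g b := g.strictMono hab
    rw [ht a, ht b] at h4
    exact Sum.Lex.inr_lt_inr_iff.mp h4

theorem emb_of_upper {F : Set A} (hF : IsLowerSet F) {X : Set A} (hX : IsLowerSet X)
    {d : A} (hd : d ∈ Fᶜ) (hdX : d ∈ X)
    (h : Nonempty ((Fᶜ : Set A) ↪o (Fᶜ ∩ Iic d : Set A))) : Nonempty (A ↪o X) := by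
  classical
  obtain ⟨e⟩ := h
  have hFd : ∀ x ∈ F, x < d := by
    intro x hx
    by_contra hcon
    exact hd (hF (not_lt.1 hcon) hx)
  refine emb_into (fun a : A => if ha : a ∈ F then a else (e ⟨a, ha⟩).1) ?_ ?_
  · intro a b hab
    by_cases ha : a ∈ F <;> by_cases hb : b ∈ F
    · simpa only [ha, hb, dif_pos] using hab
    · simp only [ha, hb, dif_pos, dif_neg, not_false_eq_true]
      by_contra hcon
      exact (e ⟨b, hb⟩).2.1 (hF (not_lt.1 hcon) ha)
    · exact absurd (hF hab.le hb) ha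
    · simp only [ha, hb, dif_neg, not_false_eq_true]
      exact e.strictMono (a := ⟨a, ha⟩) (b := ⟨b, hb⟩) hab
  · intro a
    by_cases ha : a ∈ F
    · simp only [ha, dif_pos]
      exact hX (hFd a ha).le hdX
    · simp only [ha, dif_neg, not_false_eq_true]
      exact hX (e ⟨a, ha⟩).2.2 hdX

/-- every chain of the described form is a counterexample (countability is not needed) -/
theorem counterexample_of_shape (h : Shape A) : Doubling A ∧ ¬ Unsecable A := by
  obtain ⟨F, hF, hne, h1, h2, h3, h4⟩ := h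
  have h5 := not_emb_double h1 h3
  constructor
  · rintro X hX ⟨-, hXA⟩
    have hXF : X ⊆ F := by
      intro x hx
      by_contra hxF
      exact hXA (emb_of_upper hF hX hxF hx (h1 x hxF))
    have hXX : Nonempty ((X ⊕ₗ X) ↪o (F ⊕ₗ F)) := by
      refine sum_emb (fun x => Sum.inlₗ (⟨x.1, hXF x.2⟩ : F))
        (fun x => Sum.inrₗ (⟨x.1, hXF x.2⟩ : F)) ?_ ?_ ?_
      · exact fun a b hab => Sum.Lex.inl_lt_inl_iff.mpr hab
      · exact fun a b hab => Sum.Lex.inr_lt_inr_iff.mpr hab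
      · exact fun a b => Sum.Lex.inl_lt_inr _ _
    exact ⟨emb_trans hXX h2, fun h => h5 (emb_trans (emb_set _) (emb_trans h hXX))⟩
  · intro hU
    rcases hU F hF with h | h
    · exact h3 (emb_trans (emb_set _) h)
    · exact h4 h

/-- every countable counterexample has the described form -/
theorem shape_of_counterexample [Countable A] (hD : Doubling A) (hU : ¬ Unsecable A) :
    Shape A := by
  unfold Unsecable at hU
  push Not at hU
  obtain ⟨B, hB, hAB, hAC⟩ := hU
  have hAB' : ¬ Nonempty (A ↪o B) := by simpa using hAB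
  have hAC' : ¬ Nonempty (A ↪o (Bᶜ : Set A)) := by simpa using hAC
  have hcore := not_emb_core hD hB hAB' hAC'
  set F := core A with hFdef
  have hF : IsLowerSet F := core_lower
  have hBF : B ⊆ F := fun x hx => ⟨B, ⟨hB, hAB'⟩, hx⟩
  have hFF := hD F hF ⟨emb_set _, hcore⟩
  -- an initial interval that contains a point outside of `F` is large
  have hbig : ∀ d ∈ Fᶜ, Nonempty (A ↪o (Iic d : Set A)) := by
    intro d hd
    by_contra hcon
    exact hd ⟨Iic d, ⟨isLowerSet_Iic d, hcon⟩, le_rfl⟩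
  refine ⟨F, hF, ?_, ?_, hFF.1, ?_, ?_⟩
  · by_contra hcon
    rw [Set.not_nonempty_iff_eq_empty, Set.compl_empty_iff] at hcon
    apply hcore
    rw [hcon]
    exact emb_into id strictMono_id fun x => trivial
  · intro d hd
    obtain ⟨g⟩ := hbig d hd
    refine emb_into (fun x : (Fᶜ : Set A) => (g x.1).1) (fun a b hab => g.strictMono hab)
      fun x => ⟨?_, (g x.1).2⟩
    intro hcon
    -- otherwise the initial interval below `x` embeds in `F`
    apply hcore
    refine emb_trans (hbig x.1 x.2) ?_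
    refine emb_into (fun t : (Iic x.1 : Set A) => (g t.1).1) (fun a b hab => g.strictMono hab)
      fun t => ?_
    exact hF (g.monotone (a := t.1) (b := x.1) t.2) hcon
  · rintro ⟨g⟩
    classical
    apply hFF.2
    refine ⟨OrderEmbedding.ofStrictMono (fun a : A => if ha : a ∈ F then
      (Sum.inlₗ (⟨a, ha⟩ : F) : F ⊕ₗ F) else Sum.inrₗ (g ⟨a, ha⟩)) ?_⟩
    intro a b hab
    by_cases ha : a ∈ F <;> by_cases hb : b ∈ F
    · simp only [ha, hb, dif_pos]
      exact Sum.Lex.inl_lt_inl_iff.mpr hab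
    · simp only [ha, hb, dif_pos, dif_neg, not_false_eq_true]
      exact Sum.Lex.inl_lt_inr _ _
    · exact absurd (hF hab.le hb) ha
    · simp only [ha, hb, dif_neg, not_false_eq_true]
      exact Sum.Lex.inr_lt_inr_iff.mpr (g.strictMono (a := ⟨a, ha⟩) (b := ⟨b, hb⟩) hab)
  · intro h
    exact hAC' (emb_trans h (emb_mono (compl_subset_compl.2 hBF)))

/-- every countable counterexample contains `1 + ω*` -/
theorem contains_min [Countable A] (hD : Doubling A) (hU : ¬ Unsecable A) :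
    Nonempty ((Unit ⊕ₗ ℕᵒᵈ) ↪o A) := by
  obtain ⟨F, hF, hne, h1, h2, h3, h4⟩ := shape_of_counterexample hD hU
  have hFne : F.Nonempty := by
    by_contra hcon
    rw [Set.not_nonempty_iff_eq_empty] at hcon
    apply h4
    rw [hcon, Set.compl_empty]
    exact emb_into id strictMono_id fun x => trivial
  obtain ⟨a0, ha0⟩ := hFne
  have hno : NoMinOrder (Fᶜ : Set A) := ⟨by
    intro d
    by_contra hcon
    push Not at hcon
    -- then `D` has a least element and so is a singleton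
    obtain ⟨g⟩ := h1 d.1 d.2
    apply h3
    refine emb_into (fun _ => a0) ?_ fun _ => ha0
    intro a b hab
    exfalso
    have h5 : (g a).1 < (g b).1 := g.strictMono hab
    have h6 : d ≤ ⟨(g a).1, (g a).2.1⟩ := hcon _
    have h7 : (g b).1 ≤ d.1 := (g b).2.2
    exact absurd (lt_of_lt_of_le h5 h7) (not_lt.2 h6)⟩
  have : Nonempty (Fᶜ : Set A) := hne.to_subtype
  obtain ⟨s, hs⟩ := Nat.exists_strictAnti (Fᶜ : Set A)
  refine sum_emb (fun _ => a0) (fun n => (s (OrderDual.ofDual n)).1) ?_ ?_ ?_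
  · intro a b hab
    exact absurd hab (lt_irrefl _)
  · intro a b hab
    exact hs hab
  · intro _ n
    by_contra hcon
    exact (s (OrderDual.ofDual n)).2 (hF (not_lt.1 hcon) ha0)

end Main

section Ordinals

open Ordinal

theorem key (γ : Ordinal.{u}) : (∀ β τ, β + τ = γ → τ < γ → τ + τ < γ) ↔
    γ = 0 ∨ ∃ α ρ : Ordinal.{u}, ρ < ω ^ α ∧ γ = ω ^ α + ρ := by
  constructor
  · intro h
    rw [or_iff_not_imp_left]
    intro h0
    have h1 : ω ^ log ω γ + (γ - ω ^ log ω γ) = γ :=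
      Ordinal.add_sub_cancel_of_le (opow_log_le_self ω h0)
    refine ⟨log ω γ, γ - ω ^ log ω γ, ?_, h1.symm⟩
    have h2 := h _ _ h1 (sub_omega0_opow_log_lt h0)
    by_contra hcon
    rw [not_lt] at hcon
    have h3 : γ ≤ (γ - ω ^ log ω γ) + (γ - ω ^ log ω γ) := by
      calc γ = ω ^ log ω γ + (γ - ω ^ log ω γ) := h1.symm
        _ ≤ _ := add_le_add_left hcon _
    exact absurd h2 (not_lt.2 h3)
  · rintro (rfl | ⟨α, ρ, hρ, rfl⟩) β τ h1 h2
    · exact absurd h2 not_lt_zero
    · rcases lt_or_ge τ (ω ^ α) with h3 | h3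
      · exact (isPrincipal_add_omega0_opow α h3 h3).trans_le le_self_add
      · exfalso
        rcases lt_or_ge β (ω ^ α) with h4 | h4
        · rw [add_of_omega0_opow_le h4 h3] at h1
          exact h2.ne h1
        · have h5 : ω ^ α + ρ < β + τ :=
            calc ω ^ α + ρ < ω ^ α + ω ^ α := by gcongr
              _ ≤ β + τ := add_le_add h4 h3
          exact h5.ne' h1

theorem key2 {α ρ : Ordinal.{u}} (hρ : ρ < ω ^ α) :
    (∀ β τ, β + τ = ω ^ α + ρ → ω ^ α + ρ ≤ τ ∨ ω ^ α + ρ ≤ β) ↔ ρ = 0 := by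
  constructor
  · intro h
    rcases h (ω ^ α) ρ rfl with h1 | h1
    · exact absurd (le_self_add.trans h1) (not_le.2 hρ)
    · by_contra h0
      have : ω ^ α < ω ^ α + ρ := by
        conv_lhs => rw [← add_zero (ω ^ α)]
        gcongr
        exact pos_iff_ne_zero.2 h0
      exact absurd h1 (not_le.2 this)
  · rintro rfl β τ h
    rw [add_zero] at h ⊢
    by_contra hcon
    push Not at hcon
    exact (isPrincipal_add_omega0_opow α hcon.2 hcon.1).ne h

/-- the ordinal `γ` such that the chain is the reverse of `γ` -/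
noncomputable abbrev dt (A : Type u) [LinearOrder A] [WellFoundedGT A] : Ordinal.{u} :=
  Ordinal.type ((· > ·) : A → A → Prop)

theorem dt_le {A B : Type u} [LinearOrder A] [LinearOrder B] [WellFoundedGT A]
    [WellFoundedGT B] : dt A ≤ dt B ↔ Nonempty (A ↪o B) := by
  rw [dt, dt, type_le_iff']
  constructor
  · rintro ⟨f⟩
    exact ⟨OrderEmbedding.ofStrictMono f fun a b h => f.map_rel_iff.2 h⟩
  · rintro ⟨f⟩
    exact ⟨⟨f.toEmbedding, f.lt_iff_lt⟩⟩

/-- reversed sums -/
def sumIso (A B : Type u) [LinearOrder A] [LinearOrder B] :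
    (Sum.Lex ((· > ·) : B → B → Prop) ((· > ·) : A → A → Prop)) ≃r
      ((· > ·) : (A ⊕ₗ B) → (A ⊕ₗ B) → Prop) where
  toEquiv := (Equiv.sumComm B A).trans toLex
  map_rel_iff' := by
    rintro (a | a) (b | b)
    · refine Iff.trans (Sum.Lex.inr_lt_inr_iff (a := b) (b := a)) ?_
      rw [Sum.lex_inl_inl]
    · exact iff_of_true (Sum.Lex.inl_lt_inr b a) (Sum.Lex.sep _ _)
    · exact iff_of_false Sum.Lex.not_inr_lt_inl (by simp)
    · refine Iff.trans (Sum.Lex.inl_lt_inl_iff (a := b) (b := a)) ?_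
      rw [Sum.lex_inr_inr]

instance sumWF (A B : Type u) [LinearOrder A] [LinearOrder B] [WellFoundedGT A]
    [WellFoundedGT B] : WellFoundedGT (A ⊕ₗ B) :=
  ⟨(sumIso A B).symm.toRelEmbedding.wellFounded
    (Sum.lex_wf (wellFounded_gt (α := B)) (wellFounded_gt (α := A)))⟩

theorem dt_sum (A B : Type u) [LinearOrder A] [LinearOrder B] [WellFoundedGT A]
    [WellFoundedGT B] : dt (A ⊕ₗ B) = dt B + dt A := by
  rw [dt, dt, dt, ← type_sum_lex]
  exact type_eq.2 ⟨(sumIso A B).symm⟩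

theorem dt_lower {A : Type u} [LinearOrder A] [WellFoundedGT A] {X : Set A}
    (hX : IsLowerSet X) : dt (Xᶜ : Set A) + dt X = dt A := by
  classical
  rw [dt, dt, dt, ← type_sum_lex]
  refine type_eq.2 ⟨⟨(Equiv.sumComm _ _).trans (Equiv.Set.sumCompl X), ?_⟩⟩
  rintro (a | a) (b | b)
  · simp only [Equiv.trans_apply, Equiv.sumComm_apply, Sum.swap_inl, Equiv.Set.sumCompl_apply_inr,
      Sum.lex_inl_inl]
    exact Iff.rfl
  · refine iff_of_true ?_ (Sum.Lex.sep _ _)
    simp only [Equiv.trans_apply, Equiv.sumComm_apply, Sum.swap_inl, Sum.swap_inr,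
      Equiv.Set.sumCompl_apply_inr, Equiv.Set.sumCompl_apply_inl]
    by_contra hcon
    exact a.2 (hX (not_lt.1 hcon) b.2)
  · refine iff_of_false ?_ (by simp)
    simp only [Equiv.trans_apply, Equiv.sumComm_apply, Sum.swap_inl, Sum.swap_inr,
      Equiv.Set.sumCompl_apply_inr, Equiv.Set.sumCompl_apply_inl]
    intro hcon
    exact b.2 (hX (le_of_lt hcon) a.2)
  · simp only [Equiv.trans_apply, Equiv.sumComm_apply, Sum.swap_inr, Equiv.Set.sumCompl_apply_inl,
      Sum.lex_inr_inr]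
    exact Iff.rfl

theorem exists_lower {A : Type u} [LinearOrder A] [WellFoundedGT A] {β τ : Ordinal.{u}}
    (h : β + τ = dt A) : ∃ X : Set A, IsLowerSet X ∧ dt X = τ ∧ dt (Xᶜ : Set A) = β := by
  rcases eq_or_ne τ 0 with rfl | hτ
  · refine ⟨∅, isLowerSet_empty, ?_, ?_⟩
    · exact type_eq_zero_of_empty _
    · have h1 := dt_lower (isLowerSet_empty (α := A))
      have h2 : dt (∅ : Set A) = 0 := type_eq_zero_of_empty _
      rw [h2, add_zero] at h1
      rw [h1, ← h, add_zero]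
  · have hβ : β < dt A := by
      rw [← h]
      conv_lhs => rw [← add_zero β]
      gcongr
      exact pos_iff_ne_zero.2 hτ
    set a : A := enum (· > ·) ⟨β, hβ⟩ with ha
    have h1 : dt ((Iic a)ᶜ : Set A) = β := by
      have h2 : typein (· > ·) a = β := typein_enum _ hβ
      rw [← h2, ← type_subrel]
      refine type_eq.2 ⟨⟨Equiv.subtypeEquivRight fun x => ?_, ?_⟩⟩
      · show ¬ x ≤ a ↔ a < x
        exact not_le
      · intro x y
        exact Iff.rfl
    refine ⟨Iic a, isLowerSet_Iic a, ?_, h1⟩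
    have h3 := dt_lower (isLowerSet_Iic a)
    rw [h1, ← h] at h3
    exact add_left_cancel h3

theorem doubling_iff {A : Type u} [LinearOrder A] [WellFoundedGT A] :
    Doubling A ↔ ∀ β τ, β + τ = dt A → τ < dt A → τ + τ < dt A := by
  constructor
  · intro h β τ h1 h2
    obtain ⟨X, hX, rfl, -⟩ := exists_lower h1
    have h3 := h X hX ⟨emb_set X, fun h' => absurd (dt_le.2 h') (not_le.2 h2)⟩
    rw [← dt_sum]
    exact not_le.1 fun h' => h3.2 (dt_le.1 h')
  · rintro h X hX ⟨-, h1⟩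
    have h2 : dt X < dt A := not_le.1 fun h' => h1 (dt_le.1 h')
    have h3 := h _ _ (dt_lower hX) h2
    rw [← dt_sum] at h3
    exact ⟨dt_le.1 h3.le, fun h' => absurd (dt_le.2 h') (not_le.2 h3)⟩

theorem unsecable_iff {A : Type u} [LinearOrder A] [WellFoundedGT A] :
    Unsecable A ↔ ∀ β τ, β + τ = dt A → dt A ≤ τ ∨ dt A ≤ β := by
  constructor
  · intro h β τ h1
    obtain ⟨X, hX, rfl, rfl⟩ := exists_lower h1
    rcases h X hX with h2 | h2
    · exact Or.inl (dt_le.2 h2)
    · exact Or.inr (dt_le.2 h2)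
  · intro h X hX
    rcases h _ _ (dt_lower hX) with h2 | h2
    · exact Or.inl (dt_le.1 h2)
    · exact Or.inr (dt_le.1 h2)

/-- The reversed ordinals. -/
theorem reversed (A : Type u) [LinearOrder A] [WellFoundedGT A] :
    (Doubling A ↔ dt A = 0 ∨ ∃ α ρ : Ordinal.{u}, ρ < ω ^ α ∧ dt A = ω ^ α + ρ) ∧
    ∀ α ρ : Ordinal.{u}, ρ < ω ^ α → dt A = ω ^ α + ρ → (Unsecable A ↔ ρ = 0) := by
  refine ⟨doubling_iff.trans (key _), fun α ρ hρ h => ?_⟩
  rw [unsecable_iff, h]
  exact key2 hρ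

theorem family (o : Ordinal.{0}) (h0 : 0 < o) (hc : o.card ≤ Cardinal.aleph0) :
    Countable ((ω ^ o + 1).ToType)ᵒᵈ ∧ Doubling ((ω ^ o + 1).ToType)ᵒᵈ ∧
      ¬ Unsecable ((ω ^ o + 1).ToType)ᵒᵈ := by
  have hdt : dt ((ω ^ o + 1).ToType)ᵒᵈ = ω ^ o + 1 := type_toType _
  have h1 : (1 : Ordinal.{0}) < ω ^ o := by
    have : ω ^ (0 : Ordinal.{0}) < ω ^ o := (opow_lt_opow_iff_right one_lt_omega0).2 h0
    rwa [opow_zero] at this
  obtain ⟨h2, h3⟩ := reversed ((ω ^ o + 1).ToType)ᵒᵈ
  refine ⟨?_, h2.2 (Or.inr ⟨o, 1, h1, hdt⟩), fun h => one_ne_zero ((h3 o 1 h1 hdt).1 h)⟩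
  have h4 : Cardinal.mk (ω ^ o + 1).ToType ≤ Cardinal.aleph0 := by
    rw [Cardinal.mk_toType, card_add, card_omega0_opow h0.ne', card_one]
    refine Cardinal.add_le_aleph0.2 ⟨?_, ?_⟩
    · exact max_le le_rfl hc
    · exact Cardinal.one_le_aleph0
  exact Cardinal.mk_le_aleph0_iff.1 h4

theorem family_le (o o' : Ordinal.{0}) :
    Nonempty (((ω ^ o + 1).ToType)ᵒᵈ ↪o ((ω ^ o' + 1).ToType)ᵒᵈ) ↔ o ≤ o' := by
  have hdt : ∀ γ : Ordinal.{0}, dt (γ.ToType)ᵒᵈ = γ := fun γ => type_toType _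
  rw [← dt_le, hdt, hdt, ← Order.succ_eq_add_one, ← Order.succ_eq_add_one, Order.succ_le_succ_iff,
    opow_le_opow_iff_right one_lt_omega0]

end Ordinals

open Ordinal in
/-- Complete description of the counterexamples. Call a chain `A` a counterexample if it satisfies
the hypothesis of the question (`Doubling`: `X + X < A` for every initial interval `X < A`) but is
not unsecable.

1. A countable chain `A` is a counterexample if and only if it has the form `A = F + D`
   (`Shape`) with `D` not empty, where `D` embeds in every nonempty initial interval of `D`,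
   `F + F ≤ A`, `D ≰ F` and `A ≰ D`. Every chain of this form, countable or not, satisfies the
   hypothesis and is not unsecable.
2. The chain `1 + ω*` is a counterexample, and it embeds in every countable counterexample. So it
   is the least one, and every countable chain in which `1 + ω*` does not embed and which satisfies
   the hypothesis is unsecable.
3. The reverse `γ*` of an ordinal `γ` satisfies the hypothesis if and only if `γ = 0` or
   `γ = ω ^ α + ρ` with `ρ < ω ^ α`, and then, in the second case, it is unsecable if and only if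
   `ρ = 0`.
4. For all countable ordinals `o > 0` the countable chains `(ω ^ o + 1)*` are counterexamples, and
   one of them embeds in another one if and only if the exponents are in this order; so there are
   uncountably many counterexamples up to equimorphy. -/
theorem result :
    (∀ (A : Type u) [LinearOrder A] [Countable A],
      (Doubling A ∧ ¬ Unsecable A) ↔
        ∃ F : Set A, IsLowerSet F ∧ (Fᶜ).Nonempty ∧
          (∀ d ∈ Fᶜ, Nonempty ((Fᶜ : Set A) ↪o (Fᶜ ∩ Iic d : Set A))) ∧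
          Nonempty ((F ⊕ₗ F) ↪o A) ∧ ¬ Nonempty ((Fᶜ : Set A) ↪o F) ∧
          ¬ Nonempty (A ↪o (Fᶜ : Set A))) ∧
    (∀ (A : Type u) [LinearOrder A], Shape A → Doubling A ∧ ¬ Unsecable A) ∧
    (Doubling (Unit ⊕ₗ ℕᵒᵈ) ∧ ¬ Unsecable (Unit ⊕ₗ ℕᵒᵈ)) ∧
    (∀ (A : Type u) [LinearOrder A] [Countable A], Doubling A → ¬ Unsecable A →
      Nonempty ((Unit ⊕ₗ ℕᵒᵈ) ↪o A)) ∧
    (∀ (A : Type u) [LinearOrder A] [WellFoundedGT A],
      (Doubling A ↔ Ordinal.type ((· > ·) : A → A → Prop) = 0 ∨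
        ∃ α ρ : Ordinal.{u}, ρ < ω ^ α ∧
          Ordinal.type ((· > ·) : A → A → Prop) = ω ^ α + ρ) ∧
      ∀ α ρ : Ordinal.{u}, ρ < ω ^ α → Ordinal.type ((· > ·) : A → A → Prop) = ω ^ α + ρ →
        (Unsecable A ↔ ρ = 0)) ∧
    (∀ o : Ordinal.{0}, 0 < o → o.card ≤ Cardinal.aleph0 →
      Countable ((ω ^ o + 1).ToType)ᵒᵈ ∧ Doubling ((ω ^ o + 1).ToType)ᵒᵈ ∧
        ¬ Unsecable ((ω ^ o + 1).ToType)ᵒᵈ) ∧
    (∀ o o' : Ordinal.{0},
      Nonempty (((ω ^ o + 1).ToType)ᵒᵈ ↪o ((ω ^ o' + 1).ToType)ᵒᵈ) ↔ o ≤ o') := by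
  refine ⟨fun A _ _ => ⟨fun h => shape_of_counterexample h.1 h.2, fun h =>
    counterexample_of_shape h⟩, fun A _ h => counterexample_of_shape h, ?_,
    fun A _ _ h h' => contains_min h h', fun A _ _ => reversed A, family, family_le⟩
  have h1 : dt (Unit ⊕ₗ ℕᵒᵈ) = ω + 1 := by
    rw [dt_sum]
    have h6 : dt ℕᵒᵈ = ω := type_nat_lt
    have h7 : dt Unit = 1 := type_eq_one_of_unique _
    rw [h6, h7]
  have h2 : ω + 1 = ω ^ (1 : Ordinal.{0}) + 1 := by rw [opow_one]
  have h3 : (1 : Ordinal.{0}) < ω ^ (1 : Ordinal.{0}) := by rw [opow_one]; exact one_lt_omega0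
  obtain ⟨h4, h5⟩ := reversed (Unit ⊕ₗ ℕᵒᵈ)
  exact ⟨h4.2 (Or.inr ⟨1, 1, h3, h1.trans h2⟩), fun h =>
    one_ne_zero ((h5 1 1 h3 (h1.trans h2)).1 h)⟩

end Pool.Agent.Results.MP_5790d7_co.AllCounterexamples
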